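import Pool.Agent.Helper84.BP.Step5
import Pool.Agent.Helper15.BP.Rec

/-!
# Phase 2 (note 2116): definitions and the statements of the modules

`U k` is the supremum of `D(2Y) / log |G|` over the families of slope at most `k` on groups of
exponent two.  `EN A N` is the deficiency of `(Y₁+Y₂, ..., Y_(N-1)+Y_N)`.
-/

set_option autoImplicit false

namespace Pool.Agent.Helper92.BQ

open Finset Pool.Agent.Helper15.BP

/-- families of slope at most `k` on groups of exponent two satisfy `D(2Y) ≤ u log |G|` -/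
def UB (k u : ℝ) : Prop :=
  ∀ (G : Type) [AddCommGroup G] [Finite G], (∀ x : G, x + x = 0) → ∀ A : Fam G,
    (∀ K : AddSubgroup G, A.D K ≤ k * Real.log K.index) →
      (A.add A).D ⊥ ≤ u * Real.log (Nat.card G)

/-- the best constant -/
noncomputable def U (k : ℝ) : ℝ := sInf {u : ℝ | 0 ≤ u ∧ UB k u}

/-- the conditional families `(Y_(j+1) | Y_1 + Y_2, ..., Y_j + Y_(j+1))` -/
def Gf {G : Type} [AddCommGroup G] (A : Fam G) : ℕ → Fam G
  | 0 => A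
  | j + 1 => A.fib (Gf A j)

/-- the deficiency of `(Y_1 + Y_2, ..., Y_(N-1) + Y_N)` -/
noncomputable def EN {G : Type} [AddCommGroup G] (A : Fam G) (N : ℕ) : ℝ :=
  ∑ j ∈ Finset.range (N - 1), (A.add (Gf A j)).D ⊥

/-- the same for a law (zero if `p` is not a law) -/
noncomputable def ENL {G : Type} [AddCommGroup G] [Fintype G] (p : G → ℝ) (N : ℕ) : ℝ := by
  classical exact if h : IsPr p then EN (S5.ofLaw p h) N else 0

/-- the property of the constants in Lemma E -/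
def LE (N : ℕ) (c δ : ℝ) : Prop :=
  ∀ (G : Type) [AddCommGroup G] [Finite G], (∀ x : G, x + x = 0) → ∀ A : Fam G,
    (∀ K : AddSubgroup G, A.D K ≤ c * Real.log K.index) → EN A N ≤ δ * A.D ⊥

/-! ### Statements of the modules -/

/-- thinning, (0) of the note -/
def THIN : Prop := ∀ p k : ℝ, 0 ≤ p → p ≤ 1 → 0 ≤ k → p ^ 2 * U k ≤ U (p * k)

/-- Lemma L -/
def LEML : Prop :=
  ∀ k : ℝ, 0 < k → k ≤ 1 →
    ∀ (G : Type) [AddCommGroup G] [Finite G], (∀ x : G, x + x = 0) → ∀ (Z : Fam G) (x : ℝ),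
      (∀ K : AddSubgroup G, Z.D K ≤ k * Real.log K.index + x) →
        (Z.add Z).D ⊥ ≤ U k * Real.log (Nat.card G) + (1 + U k / k) * x

/-- from `U` to the contraction factor -/
def SOFU : Prop := ∀ k σ : ℝ, 0 < k → 0 ≤ σ → (∀ μ : ℝ, 0 < μ → μ ≤ k → U μ ≤ σ * μ) → Contr k σ

/-- slopes of the fibre family of a near extremal family, (2) of the note -/
def FSLOPE : Prop :=
  ∀ k e : ℝ, 0 < k → k ≤ 1 → 0 ≤ e →
    ∀ (G : Type) [AddCommGroup G] [Finite G], (∀ x : G, x + x = 0) → ∀ A : Fam G,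
      (∀ K : AddSubgroup G, A.D K ≤ k * Real.log K.index) →
      (1 - e) * (U k * Real.log (Nat.card G)) ≤ (A.add A).D ⊥ →
      ∀ H : AddSubgroup G, (A.fib A).D H ≤
        2 * k * Real.log H.index + e * (U k * Real.log (Nat.card G))

/-- the `N`-copy inequality, (3) of the note -/
def NCOPY : Prop :=
  ∀ (G : Type) [AddCommGroup G] [Fintype G], (∀ x : G, x + x = 0) → ∀ (A : Fam G) (N : ℕ),
    1 ≤ N →
    (2 * (N : ℝ) - 1) * (2 * (A.add A).D ⊥ - ((A.add A).add (A.add A)).D ⊥) ≤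
      N * ((A.fib A).add (A.fib A)).D ⊥ +
        ∑ o, ((A.fib A).add (A.fib A)).w o * ENL (((A.fib A).add (A.fib A)).lawAt o) N

/-- Lemma E -/
def LEME : Prop :=
  (∀ σ : ℝ, 0 < σ → ∃ k : ℝ, 0 < k ∧ Contr k σ) → ∀ (N : ℕ) (δ : ℝ), 0 < δ →
    ∃ c : ℝ, 0 < c ∧ c ≤ 1 ∧ LE N c δ

/-- step 5 with a threshold, the general form -/
def STEP5C : Prop :=
  ∀ (G : Type) [AddCommGroup G] [Fintype G] (F : Fam G) (κ y c : ℝ), 0 ≤ κ → 0 < c →
    (∀ K : AddSubgroup G, F.D K ≤ κ * Real.log K.index + y) →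
    ∀ Hp : F.Ω → F.Ω → AddSubgroup G,
    (∀ a b, 0 < F.w a → 0 < F.w b → ∀ K, Hp a b ≤ K →
      c * (Real.log (Hp a b).index - Real.log K.index) ≤
        DL (conv (F.lawAt a) (F.lawAt b)) (Hp a b) - DL (conv (F.lawAt a) (F.lawAt b)) K) →
    ∑ o : F.Ω × F.Ω, prodW F.w F.w o * DL (conv (F.lawAt o.1) (F.lawAt o.2)) (Hp o.1 o.2) ≤
      κ / c * F.D ⊥ + y

/-- the chain inequality for `EN` at a law -/
def ENCHAIN : Prop :=
  ∀ (G : Type) [AddCommGroup G] [Fintype G], (∀ x : G, x + x = 0) → ∀ (N : ℕ) (c δ : ℝ),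
    0 < c → 0 ≤ δ → LE N c δ → ∀ p : G → ℝ, IsPr p → ∀ H : AddSubgroup G,
    (∀ K : AddSubgroup G, K ≤ H → DL p K - c * Real.log K.index ≤ DL p H - c * Real.log H.index) →
      ENL p N ≤ N * DL p H + δ * DL p ⊥

/-- (4) of the note: `EN` of the members of `2F` is small in the mean -/
def ENSMALL : Prop :=
  ∀ (G : Type) [AddCommGroup G] [Fintype G], (∀ x : G, x + x = 0) → ∀ (N : ℕ) (c δ : ℝ),
    0 < c → 0 ≤ δ → LE N c δ → ∀ (F : Fam G) (κ y : ℝ), 0 ≤ κ →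
    (∀ K : AddSubgroup G, F.D K ≤ κ * Real.log K.index + y) →
    ∑ o, (F.add F).w o * ENL ((F.add F).lawAt o) N ≤
      N * (κ / c * F.D ⊥ + y) + δ * (F.add F).D ⊥

/-- (5) of the note: the recursion for `U` -/
def RECU : Prop :=
  ∀ (N : ℕ) (c δ k σ : ℝ), 1 ≤ N → 0 < c → 0 ≤ δ → LE N c δ → 0 < k → 2 * k ≤ 1 →
    0 ≤ σ → σ ≤ 1 → Contr k σ →
    (2 - 1 / (N : ℝ)) * (2 - σ) * U k - 4 * k ^ 2 / c ≤ (1 + δ / N) * U (2 * k)

/-- the final bound for `U` -/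
def UFIN : Prop := ∀ ε : ℝ, 0 < ε → ∃ M : ℝ, 1 ≤ M ∧ ∀ k : ℝ, 0 < k → k ≤ 1 →
  U k ≤ M * k ^ (2 - ε)

/-- the near-optimal contraction on groups of exponent two -/
def CFIN : Prop := ∀ ε : ℝ, 0 < ε → ∃ M : ℝ, 1 ≤ M ∧ ∀ k : ℝ, 0 < k → k ≤ 1 →
  Contr k (M * k ^ (1 - ε))

end Pool.Agent.Helper92.BQ
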