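import Pool.Agent.Helper92.BQ.Defs
import Pool.Agent.Helper25.P2.Mix
import Pool.Agent.Helper29.BP.Step3

/-!
# Phase 2: slopes of the fibre family and the recursion for `U` (steps (2) and (5) of note 2116)
-/

set_option autoImplicit false

namespace Pool.Agent.Helper92.BQ

open Finset Pool.Agent.Helper15.BP

theorem idx_nonneg {G : Type} [AddCommGroup G] [Finite G] (H : AddSubgroup G) :
    0 ≤ Real.log H.index := by
  apply Real.log_nonneg
  have : H.index ≠ 0 := AddSubgroup.index_ne_zero_of_finite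
  exact_mod_cast Nat.one_le_iff_ne_zero.2 this

theorem log_card_sub {G : Type} [AddCommGroup G] [Finite G] (H : AddSubgroup G) :
    Real.log (Nat.card H) = Real.log (Nat.card G) - Real.log H.index := by
  have h1 : (Nat.card H : ℝ) * (H.index : ℝ) = Nat.card G := by
    exact_mod_cast AddSubgroup.card_mul_index H
  have h2 : (H.index : ℝ) ≠ 0 := by
    exact_mod_cast AddSubgroup.index_ne_zero_of_finite (H := H)
  have h3 : (Nat.card H : ℝ) ≠ 0 := by
    have : Nat.card H ≠ 0 := Nat.card_pos.ne'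
    exact_mod_cast this
  rw [← h1, Real.log_mul h3 h2]
  ring

/-- step (2) of the note -/
theorem fslope (hL : LEML) (hU0 : ∀ k : ℝ, 0 ≤ U k) (hUk : ∀ k : ℝ, 0 ≤ k → U k ≤ k) :
    FSLOPE := by
  intro k e hk0 hk1 _ G _ _ h2 A hA hn H
  have hfib := Fam.fib_D_general A A H
  set c : ℝ := Real.log H.index with hc
  have hc0 : 0 ≤ c := idx_nonneg H
  set x : ℝ := k * c - A.D H with hx
  have hx0 : 0 ≤ x := by
    have := hA H
    linarith
  have hres : ∀ K : AddSubgroup H, (A.resV H).D K ≤ k * Real.log K.index + x := by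
    intro K
    rw [Fam.resV_D]
    have h3 := hA (K.map H.subtype)
    rw [Fam.log_index_map] at h3
    rw [hx]
    linarith
  have h4 := hL k hk0 hk1 H (fun x => Subtype.ext (h2 x)) (A.resV H) x hres
  rw [log_card_sub] at h4
  have hg : U k / k ≤ 1 := by
    rw [div_le_one hk0]
    exact hUk k hk0.le
  have h5 : (1 + U k / k) * x ≤ 2 * x := mul_le_mul_of_nonneg_right (by linarith) hx0
  have h6 : 0 ≤ U k * c := mul_nonneg (hU0 k) hc0
  rw [hfib]
  have h7 : A.D H = k * c - x := by rw [hx]; ring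
  rw [h7]
  nlinarith

/-- step (5) of the note -/
theorem recu (hL : LEML) (hF : FSLOPE) (hN : NCOPY) (hE : ENSMALL)
    (hU0 : ∀ k : ℝ, 0 ≤ U k) (hUk : ∀ k : ℝ, 0 ≤ k → U k ≤ k)
    (hnear : ∀ k e : ℝ, 0 < k → 0 < e → 0 < U k → ∃ (G : Type) (_ : AddCommGroup G) (_ : Finite G)
      (A : Fam G), (∀ x : G, x + x = 0) ∧ (∀ K : AddSubgroup G, A.D K ≤ k * Real.log K.index) ∧
      0 < Real.log (Nat.card G) ∧ (1 - e) * (U k * Real.log (Nat.card G)) ≤ (A.add A).D ⊥) :
    RECU := by
  intro N c δ k σ hN1 hc hδ hLE hk hk1 hσ0 hσ1 hC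
  have hNR : (1 : ℝ) ≤ N := by exact_mod_cast hN1
  have hN0 : (0 : ℝ) < N := by linarith
  have hNi : 1 / (N : ℝ) ≤ 1 := by
    rw [div_le_one hN0]
    exact hNR
  have hNi0 : 0 ≤ 1 / (N : ℝ) := by positivity
  have hδN : 0 ≤ δ / N := by positivity
  rcases (hU0 k).eq_or_lt with h0 | hUpos
  · rw [← h0, mul_zero, zero_sub]
    have h1 : 0 ≤ 4 * k ^ 2 / c := by positivity
    have h2 : 0 ≤ (1 + δ / N) * U (2 * k) := mul_nonneg (by linarith) (hU0 _)
    linarith
  -- the inequality with the error `e`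
  have key : ∀ e : ℝ, 0 < e → e < 1 →
      (2 - 1 / (N : ℝ)) * (2 - σ) * (1 - e) * U k - 4 * k ^ 2 / c ≤
        (1 + δ / N) * (U (2 * k) + 2 * e * U k) + e * U k := by
    intro e he0 he1
    obtain ⟨G, i1, i2, A, h2, hA, hn0, hnear1⟩ := hnear k e hk he0 hUpos
    letI := i1
    haveI := i2
    have : Fintype G := Fintype.ofFinite G
    set n : ℝ := Real.log (Nat.card G) with hn
    set y : ℝ := e * (U k * n) with hy
    have hy0 : 0 ≤ y := by positivity
    set s : ℝ := (A.add A).D ⊥ with hs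
    have hs0 : 0 ≤ s := (A.add A).D_nonneg ⊥
    set r : ℝ := ((A.add A).add (A.add A)).D ⊥ with hr
    -- r ≤ σ s
    have hr1 : r ≤ σ * s := hC G h2 (A.add A) fun K => (Fam.D_add_le A A K).trans (hA K)
    -- slopes of F
    have hFs := hF k e hk (by linarith) he0.le G h2 A hA hnear1
    set F := A.fib A with hFdef
    have hF0 : F.D ⊥ ≤ 2 * k * n := by
      have h3 := fib_D_bot A
      have h4 := hA ⊥
      rw [AddSubgroup.index_bot] at h4
      rw [hFdef, h3]
      linarith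
    have hF0' : 0 ≤ F.D ⊥ := F.D_nonneg ⊥
    set b : ℝ := (F.add F).D ⊥ with hb
    have hb0 : 0 ≤ b := (F.add F).D_nonneg ⊥
    have hb1 : b ≤ U (2 * k) * n + (1 + U (2 * k) / (2 * k)) * y :=
      hL (2 * k) (by linarith) hk1 G h2 F y hFs
    have hg : U (2 * k) / (2 * k) ≤ 1 := by
      rw [div_le_one (by linarith)]
      exact hUk _ (by linarith)
    have hb2 : b ≤ U (2 * k) * n + 2 * y := by
      have := mul_le_mul_of_nonneg_right (show 1 + U (2 * k) / (2 * k) ≤ 2 by linarith) hy0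
      linarith
    have h5 := hN G h2 A N hN1
    have h6 := hE G h2 N c δ hc hδ hLE F (2 * k) y (by linarith) hFs
    have h7 : (2 * (N : ℝ) - 1) * (2 * s - r) ≤ N * b + (N * (2 * k / c * F.D ⊥ + y) + δ * b) :=
      h5.trans (by linarith)
    have h8 : (2 - σ) * ((1 - e) * (U k * n)) ≤ 2 * s - r := by
      have h9 : (2 - σ) * ((1 - e) * (U k * n)) ≤ (2 - σ) * s :=
        mul_le_mul_of_nonneg_left hnear1 (by linarith)
      linarith
    have h9 : (2 * (N : ℝ) - 1) * ((2 - σ) * ((1 - e) * (U k * n))) ≤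
        (2 * (N : ℝ) - 1) * (2 * s - r) := mul_le_mul_of_nonneg_left h8 (by linarith)
    have h10 : 2 * k / c * F.D ⊥ ≤ 2 * k / c * (2 * k * n) :=
      mul_le_mul_of_nonneg_left hF0 (by positivity)
    have h11 : (2 * (N : ℝ) - 1) * ((2 - σ) * ((1 - e) * (U k * n))) ≤
        (N + δ) * (U (2 * k) * n + 2 * y) + N * (2 * k / c * (2 * k * n) + y) := by
      have h12 : (N + δ) * b ≤ (N + δ) * (U (2 * k) * n + 2 * y) :=
        mul_le_mul_of_nonneg_left hb2 (by linarith)
      have h13 : (N : ℝ) * (2 * k / c * F.D ⊥ + y) ≤ N * (2 * k / c * (2 * k * n) + y) :=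
        mul_le_mul_of_nonneg_left (by linarith) hN0.le
      linarith
    -- divide by `N n`
    have h14 : ((2 - 1 / (N : ℝ)) * (2 - σ) * (1 - e) * U k) * (N * n) ≤
        ((1 + δ / N) * (U (2 * k) + 2 * e * U k) + e * U k + 4 * k ^ 2 / c) * (N * n) := by
      have e1 : ((2 - 1 / (N : ℝ)) * (2 - σ) * (1 - e) * U k) * (N * n) =
          (2 * (N : ℝ) - 1) * ((2 - σ) * ((1 - e) * (U k * n))) := by
        field_simp
      have e2 : ((1 + δ / N) * (U (2 * k) + 2 * e * U k) + e * U k + 4 * k ^ 2 / c) * (N * n) =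
          (N + δ) * (U (2 * k) * n + 2 * y) + N * (2 * k / c * (2 * k * n) + y) := by
        rw [hy]
        field_simp
        ring
      rw [e1, e2]
      exact h11
    have h15 := le_of_mul_le_mul_right h14 (by positivity)
    linarith
  -- let `e → 0`
  set P : ℝ := (2 - 1 / (N : ℝ)) * (2 - σ) * U k - 4 * k ^ 2 / c with hP
  set Q : ℝ := (1 + δ / N) * U (2 * k) with hQ
  set R : ℝ := (2 - 1 / (N : ℝ)) * (2 - σ) * U k + 2 * (1 + δ / N) * U k + U k with hR
  have hR0 : 0 ≤ R := by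
    have h1 : 0 ≤ (2 - 1 / (N : ℝ)) * (2 - σ) * U k :=
      mul_nonneg (mul_nonneg (by linarith) (by linarith)) hUpos.le
    have h2 : 0 ≤ 2 * (1 + δ / N) * U k := mul_nonneg (by linarith) hUpos.le
    linarith
  refine le_of_forall_pos_le_add fun η hη => ?_
  obtain ⟨e, he0, he1, he2⟩ : ∃ e : ℝ, 0 < e ∧ e < 1 ∧ e * R ≤ η := by
    refine ⟨min (1 / 2) (η / (R + 1)), ?_, ?_, ?_⟩
    · exact lt_min (by norm_num) (by positivity)
    · exact (min_le_left _ _).trans_lt (by norm_num)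
    · have h1 : min (1 / 2) (η / (R + 1)) * R ≤ η / (R + 1) * R :=
        mul_le_mul_of_nonneg_right (min_le_right _ _) hR0
      refine h1.trans ?_
      rw [div_mul_eq_mul_div, div_le_iff₀ (by linarith)]
      nlinarith
  have h1 := key e he0 he1
  have h2 : P - Q ≤ e * R := by
    rw [hP, hQ, hR]
    linarith
  linarith

end Pool.Agent.Helper92.BQ
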