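import Pool.Agent.Helper92.BQ.Rec
import Pool.Agent.Helper15.BP.Main

/-!
# Phase 2: solution of the recursion, `U k ≤ M k^(2-ε)` and `Contr k (M k^(1-ε))`
-/

set_option autoImplicit false

namespace Pool.Agent.Helper92.BQ

open Finset Pool.Agent.Helper15.BP

/-- contraction constants tend to zero -/
theorem contr_small (σ : ℝ) (hσ : 0 < σ) : ∃ k : ℝ, 0 < k ∧ k ≤ 1 ∧ ∀ k' : ℝ, 0 < k' → k' ≤ k →
    Contr k' σ := by
  obtain ⟨C, c, hC, hc, _, h⟩ := contr_power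
  have hC0 : 0 < C := by linarith
  refine ⟨min 1 ((σ / C) ^ (1 / c)), ?_, min_le_left _ _, ?_⟩
  · exact lt_min one_pos (Real.rpow_pos_of_pos (by positivity) _)
  · intro k' hk' hk1
    refine (h k' hk' (hk1.trans (min_le_left _ _))).mono ?_
    have h1 : k' ^ c ≤ ((σ / C) ^ (1 / c)) ^ c :=
      Real.rpow_le_rpow hk'.le (hk1.trans (min_le_right _ _)) hc.le
    rw [← Real.rpow_mul (by positivity), one_div_mul_cancel hc.ne', Real.rpow_one] at h1
    calc C * k' ^ c ≤ C * (σ / C) := mul_le_mul_of_nonneg_left h1 hC0.le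
      _ = σ := by field_simp

/-- a real number lies in a dyadic interval below `k₀` -/
theorem dyadic_induction {P : ℝ → Prop} {k₀ : ℝ} (hk₀ : 0 < k₀) (hk₀' : 2 * k₀ ≤ 1)
    (hbase : ∀ k, k₀ < k → k ≤ 1 → P k) (hstep : ∀ k, 0 < k → k ≤ k₀ → P (2 * k) → P k) :
    ∀ k, 0 < k → k ≤ 1 → P k := by
  have h : ∀ j : ℕ, ∀ k, 0 < k → k ≤ 1 → k₀ < 2 ^ j * k → P k := by
    intro j
    induction j with
    | zero =>
      intro k _ hk1 h1
      rw [pow_zero, one_mul] at h1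
      exact hbase k h1 hk1
    | succ j ih =>
      intro k hk0 hk1 h1
      by_cases h2 : k ≤ k₀
      · refine hstep k hk0 h2 (ih (2 * k) (by linarith) (by linarith) ?_)
        rw [pow_succ] at h1
        linarith
      · exact hbase k (not_le.1 h2) hk1
  intro k hk0 hk1
  obtain ⟨j, hj⟩ := pow_unbounded_of_one_lt (k₀ / k) (one_lt_two)
  exact h j k hk0 hk1 (by rwa [div_lt_iff₀ hk0] at hj)

/-- the power bound for `U`, exponent `2 - ε` with `ε ≤ 1` -/
theorem ufin1 (hR : RECU) (hE : LEME) (hU1 : ∀ k : ℝ, 0 ≤ k → U k ≤ 1) (hU0 : ∀ k : ℝ, 0 ≤ U k)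
    (ε : ℝ) (hε0 : 0 < ε) (hε1 : ε ≤ 1) :
    ∃ M : ℝ, 1 ≤ M ∧ ∀ k : ℝ, 0 < k → k ≤ 1 → U k ≤ M * k ^ (2 - ε) := by
  set q : ℝ := 2 ^ (2 - ε) with hq
  have hq4 : q < 4 := by
    have h1 : q < 2 ^ (2 : ℝ) := Real.rpow_lt_rpow_of_exponent_lt one_lt_two (by linarith)
    have h2 : (2 : ℝ) ^ (2 : ℝ) = 4 := by norm_num
    linarith
  have hq2 : 2 ≤ q := by
    have h1 : (2 : ℝ) ^ (1 : ℝ) ≤ q := Real.rpow_le_rpow_of_exponent_le one_lt_two.le (by linarith)
    rwa [Real.rpow_one] at h1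
  set η : ℝ := 4 - q with hη
  have hη0 : 0 < η := by linarith
  set t : ℝ := η / 16 with ht
  have ht0 : 0 < t := by positivity
  have ht1 : t ≤ 1 / 8 := by rw [ht]; linarith
  have hmain : η / 2 ≤ (2 - t) ^ 2 - q * (1 + t) := by
    have : q * t ≤ 4 * t := mul_le_mul_of_nonneg_right hq4.le ht0.le
    nlinarith [sq_nonneg t]
  -- N
  obtain ⟨N, hN⟩ := exists_nat_gt (1 / t)
  have hNR : 0 < (N : ℝ) := lt_trans (by positivity) hN
  have hN1 : 1 ≤ N := by
    rcases Nat.eq_zero_or_pos N with h | h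
    · rw [h, Nat.cast_zero] at hNR
      exact absurd hNR (lt_irrefl _)
    · exact h
  have hNt : 1 / (N : ℝ) ≤ t := by
    rw [div_le_iff₀ hNR]
    rw [div_lt_iff₀ ht0] at hN
    linarith
  obtain ⟨c, hc0, _, hLE⟩ := hE (fun σ hσ => by
    obtain ⟨k, h1, _, h3⟩ := contr_small σ hσ
    exact ⟨k, h1, h3 k h1 le_rfl⟩) N t ht0
  obtain ⟨k₁, hk10, hk11, hk1⟩ := contr_small t ht0
  set k₀ : ℝ := min k₁ (1 / 2) with hk₀
  have hk₀0 : 0 < k₀ := lt_min hk10 (by norm_num)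
  have hk₀1 : 2 * k₀ ≤ 1 := by
    have : k₀ ≤ 1 / 2 := min_le_right _ _
    linarith
  -- recursion
  have hrec : ∀ k : ℝ, 0 < k → k ≤ k₀ → (2 - t) ^ 2 * U k ≤ (1 + t) * U (2 * k) + 4 / c * k ^ 2 := by
    intro k hk hkk
    have h1 := hR N c t k t hN1 hc0 ht0.le hLE hk (by linarith) ht0.le (by linarith)
      (hk1 k hk (hkk.trans (min_le_left _ _)))
    have h2 : (2 - t) ^ 2 * U k ≤ (2 - 1 / (N : ℝ)) * (2 - t) * U k := by
      refine mul_le_mul_of_nonneg_right ?_ (hU0 k)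
      rw [sq]
      exact mul_le_mul_of_nonneg_right (by linarith) (by linarith)
    have h3 : (1 + t / N) * U (2 * k) ≤ (1 + t) * U (2 * k) := by
      refine mul_le_mul_of_nonneg_right ?_ (hU0 _)
      have : t / N ≤ t := div_le_self ht0.le (by exact_mod_cast hN1)
      linarith
    have h4 : 4 * k ^ 2 / c = 4 / c * k ^ 2 := by ring
    linarith
  set M : ℝ := max (k₀ ^ (-(2 - ε))) (8 / (c * η)) with hM
  have hM1 : 1 ≤ M := by
    refine le_trans ?_ (le_max_left _ _)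
    exact Real.one_le_rpow_of_pos_of_le_one_of_nonpos hk₀0 (by linarith) (by linarith)
  have hMc : 4 / c ≤ M * (η / 2) := by
    have h1 : 8 / (c * η) ≤ M := le_max_right _ _
    have h2 : 8 / (c * η) * (η / 2) ≤ M * (η / 2) := mul_le_mul_of_nonneg_right h1 (by positivity)
    have h3 : 8 / (c * η) * (η / 2) = 4 / c := by
      field_simp
      norm_num
    linarith
  refine ⟨M, hM1, dyadic_induction hk₀0 hk₀1 ?_ ?_⟩
  · intro k hk hk1'
    have hk0 : 0 < k := hk₀0.trans hk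
    refine (hU1 k hk0.le).trans ?_
    have h1 : k₀ ^ (2 - ε) ≤ k ^ (2 - ε) := Real.rpow_le_rpow hk₀0.le hk.le (by linarith)
    have h2 : k₀ ^ (-(2 - ε)) ≤ M := le_max_left _ _
    have h3 : 1 = k₀ ^ (-(2 - ε)) * k₀ ^ (2 - ε) := by
      rw [← Real.rpow_add hk₀0]
      simp
    rw [h3]
    exact mul_le_mul h2 h1 (Real.rpow_nonneg hk₀0.le _) (by linarith)
  · intro k hk hkk h2k
    have hr := hrec k hk hkk
    have h1 : (2 * k) ^ (2 - ε) = q * k ^ (2 - ε) := by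
      rw [Real.mul_rpow (by norm_num) hk.le]
    rw [h1] at h2k
    set z : ℝ := k ^ (2 - ε) with hz
    have hz0 : 0 < z := Real.rpow_pos_of_pos hk _
    have hkz : k ^ 2 ≤ z := by
      rw [hz, ← Real.rpow_natCast]
      exact Real.rpow_le_rpow_of_exponent_ge hk (by linarith) (by push_cast; linarith)
    have h3 : (1 + t) * U (2 * k) ≤ (1 + t) * (M * (q * z)) :=
      mul_le_mul_of_nonneg_left h2k (by linarith)
    have h4 : 4 / c * k ^ 2 ≤ M * (η / 2) * z := by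
      refine (mul_le_mul_of_nonneg_left hkz (by positivity)).trans ?_
      exact mul_le_mul_of_nonneg_right hMc hz0.le
    have h5 : (2 - t) ^ 2 * U k ≤ (2 - t) ^ 2 * (M * z) := by
      have h6 : M * (η / 2) * z ≤ M * ((2 - t) ^ 2 - q * (1 + t)) * z := by
        refine mul_le_mul_of_nonneg_right ?_ hz0.le
        exact mul_le_mul_of_nonneg_left hmain (by linarith)
      nlinarith
    have h6 : 0 < (2 - t) ^ 2 := by
      have : 0 < 2 - t := by linarith
      positivity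
    exact le_of_mul_le_mul_left h5 h6

theorem ufin (hR : RECU) (hE : LEME) (hU1 : ∀ k : ℝ, 0 ≤ k → U k ≤ 1) (hU0 : ∀ k : ℝ, 0 ≤ U k) :
    UFIN := by
  intro ε hε
  by_cases h : ε ≤ 1
  · exact ufin1 hR hE hU1 hU0 ε hε h
  · obtain ⟨M, hM, hk⟩ := ufin1 hR hE hU1 hU0 1 one_pos le_rfl
    refine ⟨M, hM, fun k h0 h1 => (hk k h0 h1).trans ?_⟩
    refine mul_le_mul_of_nonneg_left ?_ (by linarith)
    exact Real.rpow_le_rpow_of_exponent_ge h0 h1 (by linarith [not_le.1 h])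

/-- near-optimal contraction -/
theorem cfin (hU : UFIN) (hS : SOFU) : CFIN := by
  intro ε hε
  by_cases h : ε ≤ 1
  · obtain ⟨M, hM, hk⟩ := hU ε hε
    refine ⟨M, hM, fun k h0 h1 => hS k _ h0 (by positivity) fun μ hμ0 hμ1 => ?_⟩
    refine (hk μ hμ0 (hμ1.trans h1)).trans ?_
    have h2 : μ ^ (2 - ε) = μ ^ (1 - ε) * μ := by
      have h3 : (2 - ε) = (1 - ε) + 1 := by ring
      rw [h3, Real.rpow_add hμ0, Real.rpow_one]
    rw [h2, ← mul_assoc]
    refine mul_le_mul_of_nonneg_right ?_ hμ0.le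
    refine mul_le_mul_of_nonneg_left ?_ (by linarith)
    exact Real.rpow_le_rpow hμ0.le hμ1 (by linarith)
  · refine ⟨1, le_rfl, fun k h0 h1 => (Contr.one k).mono ?_⟩
    rw [one_mul]
    exact Real.one_le_rpow_of_pos_of_le_one_of_nonpos h0 h1 (by linarith [not_le.1 h])

end Pool.Agent.Helper92.BQ
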